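import Pool.Agent.H66.ER2.Targets

/-!
# MP_816b90_co: row EXC, exchange of the ends of a shortest outer path
-/

set_option autoImplicit false

namespace Pool.Agent.H36.ER2

open Pool.Agent.H48.ER Pool.Agent.H52.ER2 Pool.Agent.H66.ER2

/-- it is enough to consider ordered pairs of indices -/
theorem pf_of_lt {V : Type} {G : SimpleGraph V} {n : ℕ} {g : ℕ → V}
    (h : ∀ i j, i < j → j ≤ n → g i ≠ g j ∧ (G.Adj (g i) (g j) ↔ i + 1 = j)) : PF G n g := by
  refine ⟨fun i j hi hj he => ?_, fun i j hi hj => ?_⟩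
  · rcases lt_trichotomy i j with h1 | h1 | h1
    · exact absurd he (h i j h1 hj).1
    · exact h1
    · exact absurd he.symm (h j i h1 hi).1
  · rcases lt_trichotomy i j with h1 | h1 | h1
    · rw [(h i j h1 hj).2]
      omega
    · subst h1
      exact ⟨fun h2 => absurd h2 (G.loopless.irrefl _), fun h2 => by omega⟩
    · rw [SimpleGraph.adj_comm, (h j i h1 hi).2]
      omega

theorem pf_EXC (hFAB : T_FAB) : T_EXC := by
  classical
  intro V G v n z a b hG hF hS ha hb
  obtain ⟨-, -, -, -, hAB, -⟩ := hFAB V G v n z hG hF hS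
  obtain ⟨hab, hnab⟩ := hAB a ha b hb
  have hn := hS.two
  obtain ⟨ha1, ha2, ha3⟩ := ha
  obtain ⟨hb1, hb2, hb3⟩ := hb
  have hza : ∀ i, 0 < i → i < n → a ≠ z i := by
    intro i h1 h2 h3
    exact (hS.int i h1 h2).2 (h3 ▸ ha1)
  have hzb : ∀ i, 0 < i → i < n → z i ≠ b := by
    intro i h1 h2 h3
    exact (hS.int i h1 h2).2 (h3 ▸ hb1)
  obtain ⟨z', hz'⟩ : ∃ z' : ℕ → V, z' = fun i => if i = 0 then a else if i = n then b else z i :=
    ⟨_, rfl⟩
  have e0 : z' 0 = a := by rw [hz']; simp
  have en : z' n = b := by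
    rw [hz']
    simp only
    rw [if_neg (by omega), if_pos trivial]
  have ei : ∀ i, 0 < i → i < n → z' i = z i := by
    intro i h1 h2
    rw [hz']
    simp only
    rw [if_neg (by omega), if_neg (by omega)]
  have hpf : PF G n z' := by
    refine pf_of_lt ?_
    intro i j hij hj
    rcases Nat.eq_zero_or_pos i with h1 | h1
    · subst h1
      rw [e0]
      rcases Nat.lt_or_ge j n with h2 | h2
      · rw [ei j hij h2]
        refine ⟨hza j hij h2, ?_⟩
        rcases Nat.lt_or_ge 1 j with h3 | h3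
        · exact ⟨fun h => absurd h (ha3 j h3 h2), fun h => by omega⟩
        · have h4 : j = 1 := by omega
          subst h4
          exact ⟨fun _ => rfl, fun _ => ha2⟩
      · have h3 : j = n := le_antisymm hj h2
        subst h3
        rw [en]
        exact ⟨hab, fun h => absurd h hnab, fun h => by omega⟩
    · rw [ei i h1 (by omega)]
      rcases Nat.lt_or_ge j n with h2 | h2
      · rw [ei j (by omega) h2]
        refine ⟨fun h => ?_, ?_⟩
        · have := hS.pf.inj i j (by omega) hj h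
          omega
        · rw [hS.pf.adj i j (by omega) hj]
          omega
      · have h3 : j = n := le_antisymm hj h2
        subst h3
        rw [en]
        refine ⟨hzb i h1 hij, ?_⟩
        rcases Nat.lt_or_ge (i + 1) j with h3 | h3
        · exact ⟨fun h => absurd h.symm (hb3 i h1 h3), fun h => by omega⟩
        · have h4 : i = j - 1 := by omega
          exact ⟨fun _ => by omega, fun _ => h4 ▸ hb2.symm⟩
  refine ⟨z', ⟨⟨hpf, hn, ?_, ?_, ?_⟩, hS.mn⟩, e0, en, ei, ?_, ?_, ?_⟩
  · rw [e0]
    exact ha1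
  · rw [en]
    exact hb1
  · intro i h1 h2
    rw [ei i h1 h2]
    exact hS.int i h1 h2
  · ext w
    constructor
    · rintro ⟨i, h1, h2, h3⟩
      exact ⟨i, h1, h2, by rw [← ei i h1 h2]; exact h3⟩
    · rintro ⟨i, h1, h2, h3⟩
      exact ⟨i, h1, h2, by rw [ei i h1 h2]; exact h3⟩
  · ext w
    constructor
    · rintro ⟨h1, h2, h3⟩
      rw [ei 1 (by omega) (by omega)] at h2
      exact ⟨h1, h2, fun i h4 h5 => by rw [← ei i (by omega) h5]; exact h3 i h4 h5⟩
    · rintro ⟨h1, h2, h3⟩
      rw [← ei 1 (by omega) (by omega)] at h2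
      exact ⟨h1, h2, fun i h4 h5 => by rw [ei i (by omega) h5]; exact h3 i h4 h5⟩
  · ext w
    constructor
    · rintro ⟨h1, h2, h3⟩
      rw [ei (n - 1) (by omega) (by omega)] at h2
      exact ⟨h1, h2, fun i h4 h5 => by rw [← ei i h4 (by omega)]; exact h3 i h4 h5⟩
    · rintro ⟨h1, h2, h3⟩
      rw [← ei (n - 1) (by omega) (by omega)] at h2
      exact ⟨h1, h2, fun i h4 h5 => by rw [ei i h4 (by omega)]; exact h3 i h4 h5⟩

end Pool.Agent.H36.ER2
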