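import Pool.Agent.H56.ER2.Lib

/-!
# MP_816b90_co: row IC2, comparison with a third vertex
-/

set_option autoImplicit false

namespace Pool.Agent.H36.ER2

open Pool.Agent.H48.ER Pool.Agent.H52.ER2 Pool.Agent.H66.ER2 Pool.Agent.H56.ER2

theorem pf_IC2 (hFST : T_FST) : T_IC2 := by
  intro V G v n z a a' c b _ hFab hLt hc hca hca'
  obtain ⟨m, R, hO, haA, haR, haw⟩ := hLt
  have hcR : c ∉ R := fun h => hca' (hO.onlyA c h hc)
  have hcc : G.Adj c a' := hFab.clA c hc a' hO.inA hca'
  by_cases hcase : ∃ w ∈ R, G.Adj c w ∧ w ≠ a'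
  · left
    obtain ⟨w0, hw0R, hw0c, hw0a⟩ := hcase
    obtain ⟨i, j, g, R1, R2, h1, h2, hgZ, -, hU, -, -, hfirst⟩ :=
      hFST V G m b a' R {w | G.Adj c w} hO.ip.rev ⟨w0, hw0R, hw0c⟩
    have hR1 : R1 ⊆ R := by
      rw [← hU]
      exact Set.subset_union_left
    have hga : g ≠ a' := by
      rintro rfl
      rcases Nat.eq_zero_or_pos j with hj | hj
      · subst hj
        have hR2 := h2.eq_of_zero.2
        have hw : w0 ∈ R1 ∪ R2 := by rw [hU]; exact hw0R
        rcases hw with hw | hw
        · exact hw0a (hfirst w0 hw hw0c)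
        · rw [hR2] at hw
          exact hw0a hw
      · exact h2.ne hj rfl
    have ha'R1 : a' ∉ R1 := fun h => hga (hfirst a' h hcc).symm
    have hcR1 : c ∉ R1 := fun h => hcR (hR1 h)
    have hP : IP G (i + 1) c b (insert c R1) := by
      refine h1.rev.cons hcR1 ?_
      intro w hw
      exact ⟨fun h => hfirst w hw h, fun h => h ▸ hgZ⟩
    refine ⟨i + 1, insert c R1, ⟨hP, hc, hO.inB, ?_, ?_⟩, haA, ?_, ?_⟩
    · rintro w (hw | hw) hwA
      · exact hw
      · have := hO.onlyA w (hR1 hw) hwA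
        exact absurd (this ▸ hw) ha'R1
    · rintro w (hw | hw) hwB
      · subst hw
        exact absurd rfl (hFab.ab w hc w hwB).1
      · exact hO.onlyB w (hR1 hw) hwB
    · rintro (h | h)
      · exact hca h.symm
      · exact haR (hR1 h)
    · rintro w (hw | hw)
      · subst hw
        exact ⟨fun _ => rfl, fun _ => hFab.clA a haA w hc hca.symm⟩
      · constructor
        · intro h
          have := (haw w (hR1 hw)).1 h
          exact absurd (this ▸ hw) ha'R1
        · intro h
          exact absurd (h ▸ hw) hcR1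
  · right
    push Not at hcase
    exact ⟨m, R, hO, hc, hcR, fun w hw => ⟨fun h => hcase w hw h, fun h => h ▸ hcc⟩⟩

end Pool.Agent.H36.ER2
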