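import Pool.Agent.H56.ER2.Lib

/-!
# MP_816b90_co: row LSN, the last neighbour on a path
-/

set_option autoImplicit false

namespace Pool.Agent.H36.ER2

open Pool.Agent.H48.ER Pool.Agent.H52.ER2 Pool.Agent.H66.ER2 Pool.Agent.H56.ER2

/-- the greatest index with a property -/
theorem greatest {n : ℕ} {p : ℕ → Prop} (h : ∃ k, k ≤ n ∧ p k) :
    ∃ e, e ≤ n ∧ p e ∧ ∀ k, e < k → k ≤ n → ¬ p k := by
  classical
  obtain ⟨k, hk, hp⟩ := h
  exact ⟨Nat.findGreatest p n, Nat.findGreatest_le n, Nat.findGreatest_spec hk hp,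
    fun l h1 h2 => Nat.findGreatest_is_greatest h1 h2⟩

theorem pf_LSN : T_LSN := by
  intro V G v a b n P hP hv
  obtain ⟨g, hg, h0, hn, hPs⟩ := IP.toPF hP
  have hex : ∃ k, k ≤ n ∧ G.Adj v (g k) := by
    obtain ⟨w, hw, hvw⟩ := hv
    rw [hPs] at hw
    obtain ⟨k, -, hk, rfl⟩ := hw
    exact ⟨k, hk, hvw⟩
  obtain ⟨e, he, hve, hmax⟩ := greatest hex
  have hL : ∀ u ∈ seg g e n, G.Adj v u ↔ u = g e := by
    rintro u ⟨k, h1, h2, rfl⟩
    constructor
    · intro h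
      rcases Nat.eq_or_lt_of_le h1 with h3 | h3
      · rw [h3]
      · exact absurd h (hmax k h3 h2)
    · intro h
      rw [h]
      exact hve
  have hsub : seg g e n ⊆ P := by
    rw [hPs]
    rintro u ⟨k, -, h2, rfl⟩
    exact ⟨k, Nat.zero_le _, h2, rfl⟩
  have hip := PF.sub hg he le_rfl
  rw [hn] at hip
  refine ⟨n - e, g e, seg g e n, hip, hsub, hL, hsub ⟨e, le_rfl, he, rfl⟩, ?_⟩
  rintro ⟨k, h1, h2, h3⟩
  have h4 : k = 0 := hg.inj k 0 h2 (Nat.zero_le _) (by rw [h3, h0])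
  have h5 : e = 0 := by omega
  subst h5
  refine ⟨h0, Nat.sub_zero n, ?_⟩
  intro u hu hvu
  rw [hPs] at hu
  rw [(hL u hu).1 hvu, h0]

end Pool.Agent.H36.ER2
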