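import Pool.Agent.H48.ER2.Top

/-!
# MP_816b90_co: row RES, the class is closed under taking induced subgraphs
-/

set_option autoImplicit false

namespace Pool.Agent.H36.ER2

open Pool.Agent.H48.ER Pool.Agent.H52.ER2 Pool.Agent.H66.ER2 Pool.Agent.H48.ER2

variable {V : Type}

theorem ip_res_mem {G : SimpleGraph V} {C : Set V} {n : ℕ} {x y : V} {R : Set V}
    (h : IP (res G C) n x y R) (hn : 1 ≤ n) : ∀ w ∈ R, w ∈ C := by
  obtain ⟨g, h0, h1, h2, h3, hR⟩ := h
  intro w hw
  rw [hR] at hw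
  obtain ⟨i, hi, rfl⟩ := hw
  rcases Nat.lt_or_ge i n with h4 | h4
  · exact ((h3 i (i + 1) hi h4).2 (Or.inl rfl)).1
  · have h5 : i = n := le_antisymm hi h4
    subst h5
    exact ((h3 i (i - 1) hi (by omega)).2 (Or.inr (by omega))).1

theorem res_adj_iff {G : SimpleGraph V} {C : Set V} {u v : V} (hu : u ∈ C) (hv : v ∈ C) :
    G.Adj u v ↔ (res G C).Adj u v :=
  ⟨fun h => ⟨hu, hv, h⟩, fun h => h.2.2⟩

theorem res_compl_adj_iff {G : SimpleGraph V} {C : Set V} {u v : V} (hu : u ∈ C) (hv : v ∈ C) :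
    Gᶜ.Adj u v ↔ (res G C)ᶜ.Adj u v := by
  rw [SimpleGraph.compl_adj, SimpleGraph.compl_adj, res_adj_iff hu hv]

theorem pf_RES : T_RES := by
  intro V G C hG
  refine ⟨?_, ?_, ?_⟩
  · intro n u v c R hR hn hc hu hv hall
    have hm := ip_res_mem hR (by omega)
    have hcC : c ∈ C := hu.1
    refine hG.noh n u v c R (hR.congr fun a ha b hb => res_adj_iff (hm a ha) (hm b hb)) hn hc
      hu.2.2 hv.2.2 ?_
    intro w hw hcw
    exact hall w hw ⟨hcC, hm w hw, hcw⟩
  · intro a b n P hP
    have hm : ∀ w ∈ ver P, w ∈ C := by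
      rintro w ⟨i, hi⟩
      exact ip_res_mem (hP.ip i) (hP.pos i) w hi
    exact hG.nop a b n P (hP.congr fun a ha b hb => res_adj_iff (hm a ha) (hm b hb))
  · intro n u v c R hR hn hc hu hv hall
    have hR' := hR
    obtain ⟨g, h0, h1, h2, h3, hRe⟩ := hR'
    have hadj : ∀ i j, i ≤ n → j ≤ n → i + 2 ≤ j → (res G C).Adj (g i) (g j) := by
      intro i j hi hj hij
      by_contra hno
      have h4 : (res G C)ᶜ.Adj (g i) (g j) := by
        rw [SimpleGraph.compl_adj]
        refine ⟨fun h => ?_, hno⟩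
        have := h2 i j hi hj h
        omega
      have := (h3 i j hi hj).1 h4
      omega
    have hm : ∀ w ∈ R, w ∈ C := by
      intro w hw
      rw [hRe] at hw
      obtain ⟨i, hi, rfl⟩ := hw
      rcases Nat.lt_or_ge i 2 with h4 | h4
      · exact (hadj i (i + 2) hi (by omega) le_rfl).1
      · exact (hadj (i - 2) i (by omega) hi (by omega)).2.1
    have hg1 : g 1 ∈ R := by
      rw [hRe]
      exact ⟨1, by omega, rfl⟩
    have hcC : c ∈ C := by
      by_contra hno
      have h4 : (res G C)ᶜ.Adj c (g 1) := by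
        rw [SimpleGraph.compl_adj]
        refine ⟨fun h => hc (h ▸ hg1), fun h => hno h.1⟩
      rcases hall _ hg1 h4 with h5 | h5
      · rw [← h0] at h5
        have := h2 1 0 (by omega) (by omega) h5
        omega
      · rw [← h1] at h5
        have := h2 1 n (by omega) le_rfl h5
        omega
    refine hG.nah n u v c R (hR.congr fun a ha b hb => res_compl_adj_iff (hm a ha) (hm b hb)) hn
      hc ((res_compl_adj_iff hcC (hm u hR.left_mem)).2 hu)
      ((res_compl_adj_iff hcC (hm v hR.right_mem)).2 hv) ?_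
    intro w hw hcw
    exact hall w hw ((res_compl_adj_iff hcC (hm w hw)).1 hcw)

end Pool.Agent.H36.ER2
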