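import Pool.Agent.H56.ER2.Lib

/-!
# MP_816b90_co: row SGW, closing a segment
-/

set_option autoImplicit false

namespace Pool.Agent.H36.ER2

open Pool.Agent.H48.ER Pool.Agent.H52.ER2 Pool.Agent.H66.ER2 Pool.Agent.H56.ER2

theorem pf_SGW (hWSP : T_WSP) (hHOL : T_HOL) : T_SGW := by
  intro V G v n z m g i k hS hg hik hkm hi hk hno
  have hadj1 : G.Adj (g i) (g (i + 1)) := (hg.adj i (i + 1) (by omega) (by omega)).2 (Or.inl rfl)
  have hadj2 : G.Adj (g (k - 1)) (g k) := (hg.adj (k - 1) k (by omega) hkm).2 (Or.inl (by omega))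
  have hiW : g i ∉ Wz n z := fun h =>
    hno (i + 1) (by omega) (by omega) (Or.inr ⟨_, h, hadj1.symm⟩)
  have hkW : g k ∉ Wz n z := fun h => hno (k - 1) (by omega) (by omega) (Or.inr ⟨_, h, hadj2⟩)
  have hi' : ∃ w ∈ Wz n z, G.Adj (g i) w := hi.resolve_left hiW
  have hk' : ∃ w ∈ Wz n z, G.Adj (g k) w := hk.resolve_left hkW
  obtain ⟨l, s, t, T, hT, hsub, hls, hrt⟩ := hWSP V G (n - 2) (z 1) (z (n - 1)) (g i) (g k)
    (Wz n z) (Stg.ipW hS) hi' hk'
  have hnoadj : ∀ j, i < j → j < k → ∀ w ∈ Wz n z, ¬ G.Adj (g j) w := fun j h1 h2 w hw h =>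
    hno j h1 h2 (Or.inr ⟨w, hw, h⟩)
  have hout : ∀ j, i ≤ j → j ≤ k → g j ∉ Wz n z := by
    intro j h1 h2 h3
    rcases Nat.eq_or_lt_of_le h1 with h4 | h4
    · subst h4
      exact hiW h3
    · rcases Nat.eq_or_lt_of_le h2 with h5 | h5
      · subst h5
        exact hkW h3
      · exact hno j h4 h5 (Or.inl h3)
  refine ⟨l, s, t, T, hik, hT, hsub, hls, hrt, hnoadj, hout, ?_⟩
  refine hHOL V G (k - i) l (g i) (g k) s t (seg g i k) T hS.cls.noh
    (PF.sub hg (by omega) hkm) hT ?_ ?_ (by omega)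
  · rw [Set.disjoint_left]
    rintro w ⟨j, h1, h2, rfl⟩ hw
    exact hout j h1 h2 (hsub hw)
  · rintro a ⟨j, h1, h2, rfl⟩ b hb
    have hne : g i ≠ g k := fun h => by
      have := hg.inj i k (by omega) hkm h
      omega
    rcases Nat.eq_or_lt_of_le h1 with h4 | h4
    · subst h4
      rw [hls b hb]
      exact ⟨fun h => Or.inl ⟨rfl, h⟩, fun h => h.elim (fun h => h.2) fun h => absurd h.1 hne⟩
    · rcases Nat.eq_or_lt_of_le h2 with h5 | h5
      · subst h5
        rw [hrt b hb]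
        exact ⟨fun h => Or.inr ⟨rfl, h⟩, fun h => h.elim (fun h => absurd h.1.symm hne)
          fun h => h.2⟩
      · constructor
        · exact fun h => absurd h (hnoadj j h4 h5 b (hsub hb))
        · rintro (⟨h6, -⟩ | ⟨h6, -⟩)
          · have := hg.inj j i (by omega) (by omega) h6
            omega
          · have := hg.inj j k (by omega) (by omega) h6
            omega

end Pool.Agent.H36.ER2
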